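import Pool.Agent.Lib.MP_5b0a7e_nt.FixedClass

/-!
# The least prime in the residue classes `b`, `0 < |b| ≤ k`, for a varying modulus `a`

Every interval `(X, X + H]` with `X ≥ H` contains a modulus `a` such that every prime
`p ≡ b (mod a)`, `p ≠ b`, `0 < |b| ≤ k`, is at least
`(c / k) a ln H (ln₂ H)² ln₄ H / (ln₃ H)²`.
-/

namespace Pool.Agent.Results.MP_5b0a7e_nt.LeastPrimeFixedClasses

/-- `ln_j x`: the `j`-fold iterated natural logarithm of `x`. -/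
noncomputable def ln (j : ℕ) (x : ℕ) : ℝ := Real.log^[j] (x : ℝ)

/-- There are `c > 0` and `H₀` such that for all `X ≥ H ≥ H₀` and `1 ≤ k ≤ (ln₂ H)²` there is an
`a` with `X < a ≤ X + H`, coprime to all `1 ≤ b ≤ k`, such that for every integer `b` with
`0 < |b| ≤ k` every prime `p ≡ b (mod a)` with `p ≠ b` satisfies
`p ≥ (c / k) a ln H (ln₂ H)² ln₄ H / (ln₃ H)²`. -/
theorem result : ∃ c : ℝ, 0 < c ∧ ∃ H₀ : ℕ, ∀ H X k : ℕ, H₀ ≤ H → H ≤ X → 1 ≤ k →
    (k : ℝ) ≤ ln 2 H ^ 2 →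
    ∃ a : ℕ, X < a ∧ a ≤ X + H ∧ (∀ b : ℕ, 1 ≤ b → b ≤ k → a.Coprime b) ∧
      ∀ b : ℤ, b ≠ 0 → |b| ≤ k → ∀ p : ℕ, p.Prime → (p : ℤ) ≡ b [ZMOD a] → (p : ℤ) ≠ b →
        c / k * a * ln 1 H * ln 2 H ^ 2 * ln 4 H / ln 3 H ^ 2 ≤ p := by
  obtain ⟨c, hc, H₀, h⟩ := Pool.Agent.FixedClass.composite_grid
  refine ⟨c, hc, H₀, fun H X k hH hHX hk hkH => ?_⟩
  obtain ⟨a, U, haX, haXH, hka, hcop, hcomp, hle⟩ := h H X k hH hHX hk hkH
  refine ⟨a, haX, haXH, hcop, ?_⟩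
  intro b hb0 hbk p hp hmod hpb
  obtain ⟨m, hm⟩ := hmod.symm.dvd
  have hpm : (p : ℤ) = a * m + b := by linarith
  have hab := abs_le.1 hbk
  have hka' : (2 * k : ℤ) < a := by exact_mod_cast hka
  have ha0 : (0 : ℤ) < a := by
    have : (0 : ℤ) ≤ k := by positivity
    linarith
  have hp0 : (0 : ℤ) < p := by exact_mod_cast hp.pos
  have hk0 : (0 : ℤ) ≤ k := by positivity
  have hm1 : 1 ≤ m := by
    by_contra hcon
    push Not at hcon
    have hm0 : m ≤ 0 := by omega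
    rcases eq_or_lt_of_le hm0 with h0 | h0
    · apply hpb
      rw [hpm, h0]; ring
    · have h1 : (a : ℤ) * m ≤ a * (-1) := mul_le_mul_of_nonneg_left (by omega) ha0.le
      linarith
  obtain ⟨n, rfl⟩ : ∃ n : ℕ, m = n := ⟨m.toNat, by omega⟩
  have hn1 : 1 ≤ n := by exact_mod_cast hm1
  have hnU : U < n := by
    by_contra hcon
    push Not at hcon
    exact hcomp n hn1 hcon b hb0 hbk p hp hpm
  have hpU : (a * U : ℤ) ≤ p := by
    have h1 : (a : ℤ) * (U + 1) ≤ a * n :=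
      mul_le_mul_of_nonneg_left (by exact_mod_cast hnU) ha0.le
    rw [hpm]
    linarith
  have hpU' : (a : ℝ) * U ≤ p := by exact_mod_cast hpU
  refine le_trans ?_ hpU'
  have hkR : (0 : ℝ) < k := by exact_mod_cast hk
  have haR : (0 : ℝ) ≤ a := Nat.cast_nonneg _
  have e : c / k * a * ln 1 H * ln 2 H ^ 2 * ln 4 H / ln 3 H ^ 2 =
      a * ((c * Real.log H * Real.log (Real.log H) ^ 2 *
        Real.log (Real.log (Real.log (Real.log H))) / Real.log (Real.log (Real.log H)) ^ 2) / k) := by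
    simp only [ln, Function.iterate_succ, Function.iterate_zero, Function.comp, id]
    ring
  rw [e]
  refine mul_le_mul_of_nonneg_left ?_ haR
  rw [div_le_iff₀ hkR, mul_comm (U : ℝ)]
  exact hle

end Pool.Agent.Results.MP_5b0a7e_nt.LeastPrimeFixedClasses
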