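import Pool.Agent.Lib.PTg.Main

/-!
# Classes which contain exactly one small prime, in a prescribed window

Let `k` be a natural number and `0 ≤ lam < mu ≤ nu`, `kap` real numbers. There are `δ > 0` and `A0`
such that for every integer `a ≥ A0`, at least `δ φ(a)` of the integers `1 ≤ b < a` coprime to `a`
have the following property, where `F = φ(a) log a`. Among the primes `p ≡ b (mod a)` with
`p ≤ nu F` there is exactly one, `q` say, and `lam F < q ≤ mu F`. Moreover, for all integers `h`
with `0 < |h| ≤ k`, every prime `p ≡ h (mod q)` different from `h` is larger than `kap q log q`.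
-/

namespace Pool.Agent.Results.MP_5b0a7e_nt.OnePrimeInWindow

open Classical in
/-- For every large modulus `a`, a positive proportion of the classes modulo `a` contain exactly
one prime up to `nu φ(a) log a`; it lies between `lam φ(a) log a` and `mu φ(a) log a` and is itself
a modulus with large least primes in all the classes `h ≠ 0`, `|h| ≤ k`. -/
theorem result : ∀ (k : ℕ) (kap lam mu nu : ℝ), 0 ≤ lam → lam < mu → mu ≤ nu →
    ∃ δ : ℝ, 0 < δ ∧ ∃ A0 : ℕ, ∀ a : ℕ, A0 ≤ a →
      δ * (a.totient : ℝ) ≤ (((Finset.Ico 1 a).filter (fun b => Nat.Coprime a b ∧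
        ∃ q : ℕ, q.Prime ∧ q ≡ b [MOD a] ∧ lam * (a.totient : ℝ) * Real.log a < q ∧
          (q : ℝ) ≤ mu * (a.totient : ℝ) * Real.log a ∧
          (∀ p : ℕ, p.Prime → p ≡ b [MOD a] → (p : ℝ) ≤ nu * (a.totient : ℝ) * Real.log a →
            p = q) ∧
          ∀ h : ℤ, h ≠ 0 → |h| ≤ k → ∀ p : ℕ, p.Prime → (p : ℤ) ≡ h [ZMOD q] → (p : ℤ) ≠ h →
            kap * (q : ℝ) * Real.log q < p)).card : ℝ) :=
  PTg.theoremJ

end Pool.Agent.Results.MP_5b0a7e_nt.OnePrimeInWindow
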