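import Pool.Agent.Lib.PTa.Local2

/-!
# Many classes with a large least prime, in short intervals and in clusters

There are `c > 0`, `C` and `A₀` such that the following holds for every `a ≥ A₀`, every real
`lam ≥ 1`, every nonempty set `T` of integers `0 ≤ t < a` and every interval `(Y, Y + H]` inside
`[0, a]`. If `|T| lam log a ≤ c log H log log a`, then at least
`exp (-exp (C |T| lam log a / log H)) H φ(a) / a` of the integers `b` of the interval which are
coprime to `a` satisfy `p(a, b + t) > lam φ(a) log a` for all `t ∈ T` with `b + t` coprime to `a`.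
-/

namespace Pool.Agent.Results.MP_5b0a7e_nt.PositiveProportion

/-- `p(a, b)`: the smallest prime of the form `a n + b` with `n ≥ 0`. -/
noncomputable def leastPrime (a b : ℕ) : ℕ := sInf {p : ℕ | p.Prime ∧ ∃ n : ℕ, p = a * n + b}

private lemma leastPrime_spec {a b : ℕ} (ha : a ≠ 0) (hba : b.Coprime a) :
    (leastPrime a b).Prime ∧ ∃ n : ℕ, leastPrime a b = a * n + b := by
  have hne : {p : ℕ | p.Prime ∧ ∃ n : ℕ, p = a * n + b}.Nonempty := by
    obtain ⟨p, hp, hpp, hmod⟩ := Nat.forall_exists_prime_gt_and_modEq b ha hba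
    refine ⟨p, hpp, (p - b) / a, ?_⟩
    have h1 : a ∣ p - b := (Nat.modEq_iff_dvd' hp.le).mp hmod.symm
    rw [Nat.mul_div_cancel' h1]
    omega
  exact Nat.sInf_mem hne

private lemma small_log : ∃ A₁ : ℕ, ∀ a : ℕ, A₁ ≤ a → 100 ≤ Real.log a ∧
    Real.log a * Real.log a + 3 ≤ a := by
  have h1 : ∀ᶠ x : ℝ in Filter.atTop, Real.log x ≤ x ^ ((1 : ℝ) / 4) := by
    have h6 := (isLittleO_log_rpow_atTop (by norm_num : (0 : ℝ) < 1 / 4)).def
      (c := 1) (by norm_num)
    filter_upwards [h6, Filter.eventually_ge_atTop 1] with x hx hx1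
    rw [Real.norm_eq_abs, Real.norm_eq_abs, abs_of_nonneg (Real.log_nonneg hx1),
      abs_of_nonneg (by positivity), one_mul] at hx
    exact hx
  have h2 : ∀ᶠ x : ℝ in Filter.atTop, (100 : ℝ) ≤ Real.log x :=
    Real.tendsto_log_atTop.eventually_ge_atTop _
  obtain ⟨x₁, h⟩ := Filter.eventually_atTop.1 ((h1.and h2).and (Filter.eventually_ge_atTop 16))
  refine ⟨⌈x₁⌉₊, fun a ha => ?_⟩
  obtain ⟨⟨h3, h4⟩, h5⟩ := h a ((Nat.le_ceil x₁).trans (by exact_mod_cast ha))
  refine ⟨h4, ?_⟩
  set r := (a : ℝ) ^ ((1 : ℝ) / 4) with hr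
  have ha0 : (0 : ℝ) < a := by linarith
  have hr0 : 0 < r := by positivity
  have hr4 : r ^ 4 = a := by
    rw [hr, ← Real.rpow_natCast, ← Real.rpow_mul ha0.le]
    norm_num
  have h6 : Real.log a * Real.log a ≤ r * r := mul_le_mul h3 h3 (by linarith) hr0.le
  have h7 : 4 ≤ r * r := by
    have h8 : (4 : ℝ) ^ 2 ≤ (r * r) ^ 2 := by
      have : (r * r) ^ 2 = r ^ 4 := by ring
      rw [this, hr4]
      linarith
    exact le_of_sq_le_sq h8 (by positivity)
  have h9 : r * r * (r * r) = a := by rw [← hr4]; ring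
  nlinarith

open Classical in
/-- Classes with a large least prime in short intervals and in clusters. -/
theorem result : ∃ c : ℝ, 0 < c ∧ ∃ C : ℝ, ∃ A₀ : ℕ, ∀ a : ℕ, A₀ ≤ a →
    ∀ (lam : ℝ) (Y H : ℕ) (T : Finset ℕ), 1 ≤ lam → Y + H ≤ a → T.Nonempty → (∀ t ∈ T, t < a) →
    (T.card : ℝ) * lam * Real.log a ≤ c * Real.log H * Real.log (Real.log a) →
    Real.exp (-Real.exp (C * ((T.card : ℝ) * lam * Real.log a / Real.log H))) *
      ((H : ℝ) * ((a.totient : ℝ) / a)) ≤
      (((Finset.Ioc Y (Y + H)).filter (fun b => Nat.Coprime a b ∧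
        ∀ t ∈ T, Nat.Coprime a (b + t) →
          lam * (a.totient : ℝ) * Real.log a < (leastPrime a ((b + t) % a) : ℝ))).card : ℝ) := by
  obtain ⟨c, hc, C, x₀, h⟩ := PTa.translates
  obtain ⟨A₁, hA₁⟩ := small_log
  refine ⟨min (c / 6) 1, lt_min (by positivity) one_pos, 6 * C, max (max A₁ ⌈x₀⌉₊) 2,
    fun a ha lam Y H T hlam hYH hT hTa hcond => ?_⟩
  have ha1 : A₁ ≤ a := (le_max_left _ _).trans ((le_max_left _ _).trans ha)
  have ha2 : x₀ ≤ (a : ℝ) := by
    have h1 : ⌈x₀⌉₊ ≤ a := (le_max_right _ _).trans ((le_max_left _ _).trans ha)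
    exact (Nat.le_ceil x₀).trans (by exact_mod_cast h1)
  have ha3 : 2 ≤ a := (le_max_right _ _).trans ha
  obtain ⟨hL, hLa⟩ := hA₁ a ha1
  set L := Real.log a with hLdef
  have haR : (0 : ℝ) < a := by exact_mod_cast (by omega : 0 < a)
  have ha0 : a ≠ 0 := by omega
  have hTc : 1 ≤ T.card := Finset.card_pos.2 hT
  have hTR : (1 : ℝ) ≤ T.card := by exact_mod_cast hTc
  -- `H`
  have hHa : H ≤ a := by omega
  have hHaR : (H : ℝ) ≤ a := by exact_mod_cast hHa
  have hlogH : Real.log H ≤ L := by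
    rcases Nat.eq_zero_or_pos H with h0 | h0
    · rw [h0, Nat.cast_zero, Real.log_zero]
      linarith
    · exact Real.log_le_log (by exact_mod_cast h0) hHaR
  have hlogH0 : 0 ≤ Real.log H := Real.log_natCast_nonneg H
  have hll : 0 < Real.log L := Real.log_pos (by linarith)
  have hllL : Real.log L ≤ L := (Real.log_le_sub_one_of_pos (by linarith)).trans (by linarith)
  -- `lam ≤ L`
  have hlamL : lam ≤ L := by
    have h1 : min (c / 6) 1 * Real.log H * Real.log L ≤ 1 * L * L := by
      have h2 : min (c / 6) 1 * Real.log H ≤ 1 * L :=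
        mul_le_mul (min_le_right _ _) hlogH hlogH0 zero_le_one
      exact mul_le_mul h2 hllL hll.le (by linarith)
    have h3 : 1 * (lam * L) ≤ T.card * (lam * L) :=
      mul_le_mul_of_nonneg_right hTR (by positivity)
    have h4 : lam * L ≤ L * L := by
      calc lam * L = 1 * (lam * L) := by ring
        _ ≤ T.card * (lam * L) := h3
        _ = T.card * lam * L := by ring
        _ ≤ min (c / 6) 1 * Real.log H * Real.log L := hcond
        _ ≤ 1 * L * L := h1
        _ = L * L := by ring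
    exact le_of_mul_le_mul_right h4 (by linarith)
  -- the density
  have hφ1 : (a.totient : ℝ) / a ≤ 1 := by
    rw [div_le_one haR]
    exact_mod_cast Nat.totient_le a
  have hφ0 : 0 ≤ (a.totient : ℝ) / a := by positivity
  have hφ : 2 ≤ 5 * ((a.totient : ℝ) / a * L) := by
    have hω2 : (a.primeFactors.card : ℝ) ≤ 2 * L := by
      have h1 : (2 : ℝ) ^ a.primeFactors.card ≤ a := by
        exact_mod_cast LPAP.two_pow_card_primeFactors_le ha0
      have h2 : (a.primeFactors.card : ℝ) * Real.log 2 ≤ L := by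
        rw [← Real.log_pow]
        exact Real.log_le_log (by positivity) h1
      have h3 : (1 : ℝ) / 2 ≤ Real.log 2 := by
        have := Real.log_two_gt_d9
        linarith
      have h4 : (0 : ℝ) ≤ a.primeFactors.card := Nat.cast_nonneg _
      have h5 := mul_le_mul_of_nonneg_left h3 h4
      linarith
    have h6 := LPAP.prod_one_sub_ge_card a.primeFactors fun p hp =>
      (Nat.prime_of_mem_primeFactors hp).two_le
    rw [← LPAP.totient_div a ha0] at h6
    have h7 : 1 / (2 * L + 1) ≤ (a.totient : ℝ) / a :=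
      le_trans (one_div_le_one_div_of_le (by positivity) (by linarith)) h6
    have h8 : 1 / (2 * L + 1) * L ≤ (a.totient : ℝ) / a * L :=
      mul_le_mul_of_nonneg_right h7 (by linarith)
    have h9 : 2 / 5 ≤ 1 / (2 * L + 1) * L := by
      rw [div_mul_eq_mul_div, one_mul, div_le_div_iff₀ (by norm_num) (by linarith)]
      linarith
    linarith
  set U := ⌊lam * ((a.totient : ℝ) / a) * L⌋₊ + 1 with hU
  have hfl : ((⌊lam * ((a.totient : ℝ) / a) * L⌋₊ : ℕ) : ℝ) ≤
      lam * ((a.totient : ℝ) / a) * L := Nat.floor_le (by positivity)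
  set M : Finset ℤ := (Finset.range (U + 1) ×ˢ T).image
    (fun z : ℕ × ℕ => (a : ℤ) * z.1 + z.2 - a) with hM
  have hMcard : (M.card : ℝ) ≤ (6 * (T.card * lam)) * ((a.totient : ℝ) / a) * L := by
    have h1 : M.card ≤ (U + 1) * T.card := by
      refine Finset.card_image_le.trans ?_
      rw [Finset.card_product, Finset.card_range]
    have h2 : (M.card : ℝ) ≤ ((U : ℝ) + 1) * T.card := by exact_mod_cast h1
    have h3 : (U : ℝ) + 1 ≤ 6 * lam * ((a.totient : ℝ) / a * L) := by
      have h4 : (U : ℝ) = ((⌊lam * ((a.totient : ℝ) / a) * L⌋₊ : ℕ) : ℝ) + 1 := by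
        rw [hU]
        push_cast
        ring
      have h5 : 1 * ((a.totient : ℝ) / a * L) ≤ lam * ((a.totient : ℝ) / a * L) :=
        mul_le_mul_of_nonneg_right hlam (by positivity)
      rw [h4]
      linarith
    have h4 := mul_le_mul_of_nonneg_right h3 (show (0 : ℝ) ≤ T.card by positivity)
    linarith
  have hMabs : ∀ m ∈ M, |(m : ℝ)| ≤ (a : ℝ) ^ 2 := by
    intro m hm
    obtain ⟨⟨n, t⟩, hz, rfl⟩ := Finset.mem_image.1 hm
    obtain ⟨hn, ht⟩ := Finset.mem_product.1 hz
    have hn' : n ≤ U := by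
      have := Finset.mem_range.1 hn
      simp only at this
      omega
    have ht' : (t : ℝ) ≤ a := by exact_mod_cast (hTa t ht).le
    have hUa : (U : ℝ) + 1 ≤ a := by
      have h4 : (U : ℝ) = ((⌊lam * ((a.totient : ℝ) / a) * L⌋₊ : ℕ) : ℝ) + 1 := by
        rw [hU]
        push_cast
        ring
      have h5 : lam * ((a.totient : ℝ) / a) * L ≤ L * L := by
        have h6 : lam * ((a.totient : ℝ) / a) ≤ L * 1 :=
          mul_le_mul hlamL hφ1 hφ0 (by linarith)
        have h7 := mul_le_mul_of_nonneg_right h6 (show 0 ≤ L by linarith)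
        linarith
      rw [h4]
      linarith
    have hnR : (n : ℝ) ≤ U := by exact_mod_cast hn'
    have h1 : (((a : ℤ) * (n : ℤ) + (t : ℤ) - (a : ℤ) : ℤ) : ℝ) = (a : ℝ) * n + t - a := by
      push_cast
      ring
    simp only
    rw [h1, abs_le]
    have h2 : (a : ℝ) * n ≤ a * (a - 1) := mul_le_mul_of_nonneg_left (by linarith) haR.le
    have h3 : 0 ≤ (a : ℝ) * n := by positivity
    have h4 : (0 : ℝ) ≤ t := Nat.cast_nonneg t
    have h5 : (2 : ℝ) ≤ a := by exact_mod_cast ha3
    constructor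
    · nlinarith
    · nlinarith
  have hlam6 : 1 ≤ 6 * (T.card * lam) := by
    have : 1 * 1 ≤ (T.card : ℝ) * lam := mul_le_mul hTR hlam zero_le_one (by linarith)
    linarith
  have hcond6 : 6 * (T.card * lam) * L ≤ c * Real.log H * Real.log L := by
    have h1 : min (c / 6) 1 * Real.log H * Real.log L ≤ c / 6 * Real.log H * Real.log L := by
      have := min_le_left (c / 6) 1
      exact mul_le_mul_of_nonneg_right (mul_le_mul_of_nonneg_right this hlogH0) hll.le
    have h2 : c / 6 * Real.log H * Real.log L = c * Real.log H * Real.log L / 6 := by ring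
    have h3 : 6 * (T.card * lam) * L = 6 * ((T.card : ℝ) * lam * L) := by ring
    linarith
  have key := h a ha2 a (by omega) le_rfl (6 * (T.card * lam)) Y H M hlam6 hHaR hMabs hMcard hcond6
  have hexp : Real.exp (-Real.exp (6 * C * ((T.card : ℝ) * lam * L / Real.log H))) =
      Real.exp (-Real.exp (C * (6 * (T.card * lam) * L / Real.log H))) := by
    congr 3
    ring
  rw [hexp]
  refine key.trans (Nat.cast_le.2 (Finset.card_le_card ?_))
  intro b hb
  obtain ⟨h1, h2, h3⟩ := Finset.mem_filter.1 hb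
  obtain ⟨h4, h5⟩ := Finset.mem_Ioc.1 h1
  refine Finset.mem_filter.2 ⟨h1, h2.symm, fun t ht hcop => ?_⟩
  by_contra hcon
  push Not at hcon
  set r := (b + t) % a with hr
  have hcop' : r.Coprime a := by
    have h6 : Nat.gcd (b + t) a = 1 := by
      rw [Nat.gcd_comm]
      exact hcop
    have h7 : Nat.gcd ((b + t) % a) a = Nat.gcd a (b + t) := (Nat.gcd_rec a (b + t)).symm
    show Nat.gcd r a = 1
    rw [hr, h7]
    exact hcop
  obtain ⟨hp, n, hn⟩ := leastPrime_spec ha0 hcop'
  have hj : (b + t) / a ≤ 1 := by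
    have := hTa t ht
    have h6 : (b + t) / a < 2 := by
      rw [Nat.div_lt_iff_lt_mul (by omega)]
      omega
    omega
  have hdm : a * ((b + t) / a) + r = b + t := Nat.div_add_mod (b + t) a
  have hnU : n + 1 ≤ U := by
    rw [hU]
    refine Nat.add_le_add_right (Nat.le_floor ?_) 1
    have h6 : (a : ℝ) * n ≤ lam * (a.totient : ℝ) * L := by
      refine le_trans ?_ hcon
      rw [hn]
      push_cast
      have : (0 : ℝ) ≤ (r : ℝ) := Nat.cast_nonneg r
      linarith
    have h7 : (a : ℝ) * (lam * ((a.totient : ℝ) / a) * L) = lam * (a.totient : ℝ) * L := by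
      field_simp
    rw [← h7] at h6
    exact le_of_mul_le_mul_left h6 haR
  refine h3 ((a : ℤ) * ((n + 1 - (b + t) / a : ℕ) : ℤ) + (t : ℤ) - a) ?_ ?_
  · rw [hM]
    refine Finset.mem_image.2 ⟨(n + 1 - (b + t) / a, t), Finset.mem_product.2 ⟨?_, ht⟩, rfl⟩
    rw [Finset.mem_range]
    exact lt_of_le_of_lt (Nat.sub_le _ _) (by omega)
  · have h8 : (a : ℤ) * ((n + 1 - (b + t) / a : ℕ) : ℤ) + (t : ℤ) - a + (b : ℤ) =
        ((leastPrime a r : ℕ) : ℤ) := by
      rw [hn]
      have h9 : ((n + 1 - (b + t) / a : ℕ) : ℤ) = (n : ℤ) + 1 - (((b + t) / a : ℕ) : ℤ) := by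
        rw [Nat.cast_sub (by omega)]
        push_cast
        ring
      have h10 : (a : ℤ) * (((b + t) / a : ℕ) : ℤ) + (r : ℤ) = (b : ℤ) + (t : ℤ) := by
        exact_mod_cast hdm
      rw [h9]
      push_cast at h10 ⊢
      linear_combination -h10
    rw [h8, Int.natAbs_natCast]
    exact hp

end Pool.Agent.Results.MP_5b0a7e_nt.PositiveProportion
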